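import Pool.Agent.Work.MP_0fc146_gt_h31.Interface

/-!
# Blocks Dev, DevCont, Fib
-/

noncomputable section

open scoped Topology ENNReal UpperHalfPlane Manifold ContDiff
open Filter

namespace Pool.Agent.CircleShift

namespace DevAux

theorem Tl_add4 (k : Fin 8) : Tl (k + 4) = (Tl k)⁻¹ := by
  unfold Tl
  rw [FreeGroup.inv_mk]
  revert k
  decide +kernel

theorem tau_one (W : OctData) : W.tau 1 = 0 := by
  have h := W.tau_mul 1 1
  rw [mul_one] at h
  simpa using h

theorem tau_inv (W : OctData) (g : G) : W.tau g⁻¹ = - W.tau g := by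
  have h := W.tau_mul g g⁻¹
  rw [mul_inv_cancel, tau_one] at h
  linear_combination -h

theorem fin45 (k : Fin 8) : k + 4 + 5 = k + 1 := by revert k; decide

theorem fin41 (k : Fin 8) : k + 4 + 1 = k + 5 := by revert k; decide

theorem glue' (W : OctData) (k : Fin 8) : W.w (k + 1) = W.w (k + 4) + W.tau (Tl k) := by
  have h := W.glue (k + 4)
  rw [Tl_add4, tau_inv] at h
  rw [fin45] at h
  linear_combination -h

/-- The value of the developing map on a triangle. -/
def val (W : OctData) (h : G) (k : Fin 8) (d : ℝ × ℝ) : ℂ :=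
  W.tau h + d.1 * W.w k + d.2 * W.w (k + 1)

theorem val_congr {U : Type} [TopologicalSpace U] [MulAction G U]
    {pt : G → Fin 8 → ℝ × ℝ → U} (hT : OctTree U pt) (W : OctData)
    {h : G} {k : Fin 8} {d : ℝ × ℝ} {h' : G} {k' : Fin 8} {d' : ℝ × ℝ}
    (hd : d ∈ Tset) (hd' : d' ∈ Tset) (he : pt h k d = pt h' k' d') :
    val W h k d = val W h' k' d' := by
  obtain ⟨d1, d2⟩ := d
  obtain ⟨d1', d2'⟩ := d'
  rcases hT.inj h k _ h' k' _ hd hd' he with ⟨rfl, rfl, h3⟩ | ⟨rfl, h2, h3⟩ | ⟨rfl, rfl, h2, h3⟩ |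
    ⟨rfl, rfl, h2, h3⟩ | ⟨rfl, rfl, h2, h3⟩
  · rw [h3]
  · rw [h2, h3]
    simp [val]
  · simp only [Prod.mk.injEq] at h2 h3
    obtain ⟨rfl, rfl⟩ := h3
    subst h2
    simp [val]
  · simp only [Prod.mk.injEq] at h2 h3
    obtain ⟨rfl, rfl⟩ := h3
    subst h2
    simp [val]
  · simp only [Prod.mk.injEq] at h2 h3
    obtain ⟨rfl, rfl⟩ := h3
    simp only [val]
    rw [W.tau_mul, fin41, W.glue k, glue' W k]
    have h4 : ((d1' : ℝ) : ℂ) = 1 - (d2' : ℂ) := by
      have : d1' = 1 - d2' := by linarith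
      rw [this]; push_cast; ring
    rw [h4]
    ring

end DevAux

open DevAux

theorem stmt_Dev : Stmt_Dev := by
  intro U _ _ pt hT W
  choose H K D hD he using hT.surj
  refine ⟨fun u => val W (H u) (K u) (D u), ?_⟩
  intro h k d hd
  have := val_congr hT W (hD (pt h k d)) hd (he (pt h k d))
  exact this

theorem stmt_DevCont : Stmt_DevCont := by
  intro U _ _ _ pt hT W D hD
  constructor
  · have hcl : ∀ x : G × Fin 8, pt x.1 x.2 '' Tset = Set.range (fun d : Tset => pt x.1 x.2 d) := by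
      intro x
      ext u
      simp
    refine hT.lf.continuous ?_ ?_ ?_
    · rw [Set.eq_univ_iff_forall]
      intro u
      obtain ⟨h, k, d, hd, rfl⟩ := hT.surj u
      exact Set.mem_iUnion.2 ⟨(h, k), d, hd, rfl⟩
    · intro x
      rw [hcl]
      exact (hT.emb x.1 x.2).isClosed_range
    · intro x
      rw [hcl, continuousOn_iff_continuous_domRestrict]
      set e := (hT.emb x.1 x.2).isEmbedding.toHomeomorph
      have h1 : Continuous (fun d : Tset => W.tau x.1 + (d : ℝ × ℝ).1 * W.w x.2 +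
          (d : ℝ × ℝ).2 * W.w (x.2 + 1)) := by fun_prop
      have h2 : (Set.range (fun d : Tset => pt x.1 x.2 d)).domRestrict D =
          (fun d : Tset => W.tau x.1 + (d : ℝ × ℝ).1 * W.w x.2 +
          (d : ℝ × ℝ).2 * W.w (x.2 + 1)) ∘ e.symm := by
        funext u
        obtain ⟨d, rfl⟩ := e.surjective u
        simp only [Set.domRestrict_apply, Function.comp, Homeomorph.symm_apply_apply]
        exact hD x.1 x.2 d d.2
      rw [h2]
      exact h1.comp e.symm.continuous
  · intro g u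
    obtain ⟨h, k, d, hd, rfl⟩ := hT.surj u
    rw [hT.smul, hD _ _ _ hd, hD _ _ _ hd, W.tau_mul]
    ring

namespace DevAux

theorem vertex (W : OctData) (k : Fin 8) : ∃ g, W.w k = W.w 0 + W.tau g := by
  have step : ∀ k : Fin 8, (∃ g, W.w (k + 5) = W.w 0 + W.tau g) → ∃ g, W.w k = W.w 0 + W.tau g := by
    rintro k ⟨g, hg⟩
    refine ⟨g * Tl k, ?_⟩
    rw [W.glue k, hg, W.tau_mul]
    ring
  have h0 : ∃ g, W.w 0 = W.w 0 + W.tau g := ⟨1, by rw [tau_one]; ring⟩
  have h3 := step 3 h0
  have h6 := step 6 h3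
  have h1 := step 1 h6
  have h4 := step 4 h1
  have h7 := step 7 h4
  have h2 := step 2 h7
  have h5 := step 5 h2
  fin_cases k <;> assumption

/-- The edge vectors are independent. -/
theorem indep (W : OctData) (k : Fin 8) (b c : ℝ) (h : (b : ℂ) * W.w k + c * W.w (k + 1) = 0) :
    b = 0 ∧ c = 0 := by
  have ha := W.area k
  unfold cross at ha
  have h1 := congrArg Complex.re h
  have h2 := congrArg Complex.im h
  simp at h1 h2
  constructor
  · have : b * ((W.w k).re * (W.w (k + 1)).im - (W.w k).im * (W.w (k + 1)).re) = 0 := by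
      linear_combination (W.w (k+1)).im * h1 - (W.w (k+1)).re * h2
    rcases mul_eq_zero.1 this with h | h
    · exact h
    · exact absurd h ha.ne'
  · have : c * ((W.w k).re * (W.w (k + 1)).im - (W.w k).im * (W.w (k + 1)).re) = 0 := by
      linear_combination (W.w k).re * h2 - (W.w k).im * h1
    rcases mul_eq_zero.1 this with h | h
    · exact h
    · exact absurd h ha.ne'

end DevAux

theorem stmt_Fib : Stmt_Fib := by
  intro U _ _ _ pt hT W D hD
  refine ⟨?_, W.puncture, ?_⟩
  · intro u g hu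
    obtain ⟨h, k, d, hd, rfl⟩ := hT.surj u
    rw [hD _ _ _ hd] at hu
    have h1 : (d.1 : ℂ) * W.w k + d.2 * W.w (k + 1) = W.tau (h⁻¹ * g) := by
      rw [W.tau_mul, tau_inv, ← hu]
      ring
    have h2 := W.lat k _ _ _ hd.1 hd.2.1 hd.2.2.1 h1
    rw [h2] at h1
    obtain ⟨h3, h4⟩ := indep W k _ _ h1
    refine ⟨h, ?_⟩
    rw [hT.smul, mul_one]
    have h5 : d = (0, 0) := Prod.ext h3 h4
    rw [h5]
    exact hT.center h k 0
  · intro η hη
    let P : Fin 8 → Set (ℝ × ℝ) := fun k => {d | 0 ≤ d.1 ∧ 0 ≤ d.2 ∧ d.1 + d.2 ≤ 1 ∧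
      η ≤ ‖(d.1 : ℂ) * W.w k + d.2 * W.w (k + 1) - W.w k‖ ∧
      η ≤ ‖(d.1 : ℂ) * W.w k + d.2 * W.w (k + 1) - W.w (k + 1)‖}
    have hPT : ∀ k, P k ⊆ Tset := by
      rintro k d ⟨h1, h2, h3, h4, h5⟩
      refine ⟨h1, h2, h3, ?_, ?_⟩
      · intro h
        have h6 : d.2 = 0 := by linarith
        rw [h, h6] at h4
        simp at h4
        linarith
      · intro h
        have h6 : d.1 = 0 := by linarith
        rw [h, h6] at h5
        simp at h5
        linarith
    have hPc : ∀ k, IsCompact (P k) := by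
      intro k
      have hsub : P k ⊆ Set.Icc ((0 : ℝ), (0 : ℝ)) (1, 1) := by
        rintro d ⟨h1, h2, h3, -, -⟩
        exact ⟨⟨h1, h2⟩, ⟨by simp; linarith, by simp; linarith⟩⟩
      refine IsCompact.of_isClosed_subset isCompact_Icc ?_ hsub
      have : P k = {d | 0 ≤ d.1} ∩ {d | 0 ≤ d.2} ∩ {d | d.1 + d.2 ≤ 1} ∩
          {d | η ≤ ‖(d.1 : ℂ) * W.w k + d.2 * W.w (k + 1) - W.w k‖} ∩
          {d | η ≤ ‖(d.1 : ℂ) * W.w k + d.2 * W.w (k + 1) - W.w (k + 1)‖} := by
        ext d
        simp only [P, Set.mem_ofPred_eq, Set.mem_inter_iff]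
        tauto
      rw [this]
      refine ((((isClosed_le (by fun_prop) (by fun_prop)).inter
        (isClosed_le (by fun_prop) (by fun_prop))).inter
        (isClosed_le (by fun_prop) (by fun_prop))).inter
        (isClosed_le (by fun_prop) (by fun_prop))).inter
        (isClosed_le (by fun_prop) (by fun_prop))
    refine ⟨⋃ k, pt 1 k '' P k, ?_, ?_⟩
    · refine isCompact_iUnion fun k => ?_
      refine (hPc k).image_of_continuousOn ?_
      have h1 : ContinuousOn (pt 1 k) Tset := by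
        rw [continuousOn_iff_continuous_domRestrict]
        exact (hT.emb 1 k).continuous
      exact h1.mono (hPT k)
    · intro u hu
      obtain ⟨h, k, d, hd, rfl⟩ := hT.surj u
      refine ⟨h⁻¹, ?_⟩
      rw [hT.smul, inv_mul_cancel]
      refine Set.mem_iUnion.2 ⟨k, d, ⟨hd.1, hd.2.1, hd.2.2.1, ?_, ?_⟩, rfl⟩
      · obtain ⟨g, hg⟩ := vertex W k
        have h1 := hu (h * g)
        rw [hD _ _ _ hd, W.tau_mul] at h1
        convert h1 using 2
        linear_combination -hg
      · obtain ⟨g, hg⟩ := vertex W (k + 1)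
        have h1 := hu (h * g)
        rw [hD _ _ _ hd, W.tau_mul] at h1
        convert h1 using 2
        linear_combination -hg

end Pool.Agent.CircleShift
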