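import Pool.Agent.Work.MP_0fc146_gt_helper70.Dev
import Pool.Agent.Work.MP_0fc146_gt_helper72.TREEa
import Pool.Agent.Work.MP_0fc146_gt_helper95.Loc

/-!
# Block VGeo: the combinatorial intersection numbers are the geometric ones
-/

noncomputable section

open scoped Topology ENNReal
open Filter

namespace Pool.Agent.CircleShift

namespace VGeoAux

open DevAux LocAux

/-- The triangulation of the octagon `W`. -/
abbrev TT (W : OctData) : Tri := otri (fun k => (W.w k).re)

/-- The local transverse coordinate. -/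
def lc (W : OctData) (k : Fin 8) (d : ℝ × ℝ) : ℝ := d.1 * (W.w k).re + d.2 * (W.w (k + 1)).re

theorem nb0 : ∀ k : Fin 8, ostri.nb k 0 = (k + 4, 0) := by decide
theorem nb1 : ∀ k : Fin 8, ostri.nb k 1 = (k + 1, 2) := by decide
theorem nb2 : ∀ k : Fin 8, ostri.nb (k + 1) 2 = (k, 1) := by decide
theorem lab1 : ∀ k : Fin 8, ostri.lab k 1 = [] := by decide
theorem lab2 : ∀ k : Fin 8, ostri.lab k 2 = [] := by decide
theorem sub_add_one : ∀ k : Fin 8, k - 1 + 1 = k := by decide

variable {W : OctData}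

theorem side_chain (h : G) (k : Fin 8) {q : ℝ}
    (hq : q ∈ Set.uIcc (W.w k).re (W.w (k + 1)).re) :
    (TT W).Chain (h, k, q) (h * Tl k, k + 4, q - (W.tau (Tl k)).re) 0 := by
  have h0 := Tri.Chain.cross (T := TT W) h k 0 q hq
  have e2 : (TT W).nb k 0 = (k + 4, 0) := nb0 k
  have e3 : (TT W).shift k 0 = - (W.tau (Tl k)).re := by
    unfold Tri.shift
    rw [e2]
    change (W.w (k + 4 + 1)).re - (W.w k).re = _
    rw [fin41, W.glue k]
    simp
  rw [e2, e3] at h0
  exact h0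

theorem spoke_chain (h : G) (k : Fin 8) {q : ℝ} (hq : q ∈ Set.uIcc (W.w (k + 1)).re 0) :
    (TT W).Chain (h, k, q) (h, k + 1, q) 0 := by
  have h0 := Tri.Chain.cross (T := TT W) h k 1 q hq
  have e2 : (TT W).nb k 1 = (k + 1, 2) := nb1 k
  have e3 : (TT W).shift k 1 = 0 := by
    unfold Tri.shift
    rw [e2]
    change (W.w (k + 1)).re - (W.w (k + 1)).re = _
    simp
  have e1 : (TT W).lab k 1 = 1 := by
    change FreeGroup.mk (ostri.lab k 1) = 1
    rw [lab1]; rfl
  rw [e2, e3, e1, mul_one, add_zero] at h0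
  exact h0

theorem spoke_chain' (h : G) (k : Fin 8) {q : ℝ} (hq : q ∈ Set.uIcc (W.w (k + 1)).re 0) :
    (TT W).Chain (h, k + 1, q) (h, k, q) 0 := by
  have hq' : (TT W).InEdge (k + 1) 2 q := by
    change q ∈ Set.uIcc 0 (W.w (k + 1)).re
    rwa [Set.uIcc_comm]
  have h0 := Tri.Chain.cross (T := TT W) h (k + 1) 2 q hq'
  have e2 : (TT W).nb (k + 1) 2 = (k, 1) := nb2 k
  have e3 : (TT W).shift (k + 1) 2 = 0 := by
    unfold Tri.shift
    rw [e2]
    change (0 : ℝ) - 0 = _
    simp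
  have e1 : (TT W).lab (k + 1) 2 = 1 := by
    change FreeGroup.mk (ostri.lab (k + 1) 2) = 1
    rw [lab2]; rfl
  rw [e2, e3, e1, mul_one, add_zero] at h0
  exact h0

theorem center_refl (h : G) (k : Fin 8) : (TT W).Chain (h, k, 0) (h, k, 0) 0 := by
  have := Tri.Chain.slide (T := TT W) h k 0 0 ⟨0, 0, le_rfl, le_rfl⟩ ⟨0, 0, le_rfl, le_rfl⟩
  simpa using this

theorem fin8_ind {P : Fin 8 → Prop} (h0 : P 0) (step : ∀ k, P k → P (k + 1)) (k : Fin 8) : P k := by
  have h1 := step 0 h0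
  have h2 := step 1 h1
  have h3 := step 2 h2
  have h4 := step 3 h3
  have h5 := step 4 h4
  have h6 := step 5 h5
  have h7 := step 6 h6
  fin_cases k <;> assumption

theorem center_chain (h : G) (k k' : Fin 8) : (TT W).Chain (h, k, 0) (h, k', 0) 0 := by
  have h1 : (TT W).Chain (h, 0, 0) (h, k', 0) 0 := by
    refine fin8_ind (P := fun k' => (TT W).Chain (h, 0, 0) (h, k', 0) 0) (center_refl h 0) ?_ k'
    intro j hj
    have := hj.trans (spoke_chain (W := W) h j (q := 0) (by simp))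
    rwa [add_zero] at this
  have h2 : (TT W).Chain (h, k, 0) (h, 0, 0) 0 := by
    refine fin8_ind (P := fun k => (TT W).Chain (h, k, 0) (h, 0, 0) 0) (center_refl h 0) ?_ k
    intro j hj
    have := (spoke_chain' (W := W) h j (q := 0) (by simp)).trans hj
    rwa [add_zero] at this
  have := h2.trans h1
  rwa [add_zero] at this

theorem inRange_lc (k : Fin 8) {d : ℝ × ℝ} (hd : d ∈ Tset) : (TT W).InRange k (lc W k d) := by
  obtain ⟨h1, h2, h3, -, -⟩ := hd
  have hlo : ∃ i, (TT W).pos k i ≤ lc W k d := by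
    by_contra hcon
    push Not at hcon
    have c0 : lc W k d < 0 := hcon 0
    have c1 : lc W k d < (W.w k).re := hcon 1
    have c2 : lc W k d < (W.w (k + 1)).re := hcon 2
    have e1 : 0 ≤ d.1 * ((W.w k).re - lc W k d) := mul_nonneg h1 (by linarith)
    have e2 : 0 ≤ d.2 * ((W.w (k + 1)).re - lc W k d) := mul_nonneg h2 (by linarith)
    have e3 : 0 ≤ (1 - d.1 - d.2) * (0 - lc W k d) := mul_nonneg (by linarith) (by linarith)
    have e4 : d.1 * ((W.w k).re - lc W k d) + d.2 * ((W.w (k + 1)).re - lc W k d) +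
        (1 - d.1 - d.2) * (0 - lc W k d) = 0 := by
      unfold lc; ring
    rcases eq_or_lt_of_le h1 with h1 | h1
    · rcases eq_or_lt_of_le h2 with h2 | h2
      · rw [← h1, ← h2] at e4
        simp at e4
        linarith
      · have := mul_pos h2 (show 0 < (W.w (k + 1)).re - lc W k d by linarith)
        linarith
    · have := mul_pos h1 (show 0 < (W.w k).re - lc W k d by linarith)
      linarith
  have hhi : ∃ j, lc W k d ≤ (TT W).pos k j := by
    by_contra hcon
    push Not at hcon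
    have c0 : 0 < lc W k d := hcon 0
    have c1 : (W.w k).re < lc W k d := hcon 1
    have c2 : (W.w (k + 1)).re < lc W k d := hcon 2
    have e1 : 0 ≤ d.1 * (lc W k d - (W.w k).re) := mul_nonneg h1 (by linarith)
    have e2 : 0 ≤ d.2 * (lc W k d - (W.w (k + 1)).re) := mul_nonneg h2 (by linarith)
    have e3 : 0 ≤ (1 - d.1 - d.2) * (lc W k d - 0) := mul_nonneg (by linarith) (by linarith)
    have e4 : d.1 * (lc W k d - (W.w k).re) + d.2 * (lc W k d - (W.w (k + 1)).re) +
        (1 - d.1 - d.2) * (lc W k d - 0) = 0 := by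
      unfold lc; ring
    rcases eq_or_lt_of_le h1 with h1 | h1
    · rcases eq_or_lt_of_le h2 with h2 | h2
      · rw [← h1, ← h2] at e4
        simp at e4
        linarith
      · have := mul_pos h2 (show 0 < lc W k d - (W.w (k + 1)).re by linarith)
        linarith
    · have := mul_pos h1 (show 0 < lc W k d - (W.w k).re by linarith)
      linarith
  obtain ⟨i, hi⟩ := hlo
  obtain ⟨j, hj⟩ := hhi
  exact ⟨i, j, hi, hj⟩

theorem mem_uIcc_comb {a b s t : ℝ} (hs : 0 ≤ s) (ht : 0 ≤ t) (hst : s + t = 1) :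
    s * a + t * b ∈ Set.uIcc a b := by
  rw [← segment_eq_uIcc]
  exact ⟨s, t, hs, ht, hst, by simp⟩

theorem zero_chain {U : Type} [TopologicalSpace U] [MulAction G U]
    {pt : G → Fin 8 → ℝ × ℝ → U} (hT : OctTree U pt)
    {h : G} {k : Fin 8} {d : ℝ × ℝ} {h' : G} {k' : Fin 8} {d' : ℝ × ℝ}
    (hd : d ∈ Tset) (hd' : d' ∈ Tset) (he : pt h k d = pt h' k' d') :
    (TT W).Chain (h, k, lc W k d) (h', k', lc W k' d') 0 := by
  have hself : ∀ (h : G) (k : Fin 8) (d : ℝ × ℝ), d ∈ Tset →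
      (TT W).Chain (h, k, lc W k d) (h, k, lc W k d) 0 := by
    intro h k d hd
    have := Tri.Chain.slide (T := TT W) h k _ _ (inRange_lc k hd) (inRange_lc k hd)
    rwa [sub_self, abs_zero] at this
  obtain ⟨d1, d2⟩ := d
  obtain ⟨d1', d2'⟩ := d'
  rcases hT.inj h k _ h' k' _ hd hd' he with ⟨rfl, rfl, h3⟩ | ⟨rfl, h2, h3⟩ | ⟨rfl, rfl, h2, h3⟩ |
    ⟨rfl, rfl, h2, h3⟩ | ⟨rfl, rfl, h2, h3⟩
  · rw [h3]
    exact hself _ _ _ hd'
  · rw [h2, h3]
    have := center_chain (W := W) h k k'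
    simpa [lc] using this
  · simp only [Prod.mk.injEq] at h2 h3
    obtain ⟨rfl, rfl⟩ := h3
    subst h2
    have hq : d1' * (W.w (k + 1)).re ∈ Set.uIcc (W.w (k + 1)).re 0 := by
      have := mem_uIcc_comb (a := (W.w (k + 1)).re) (b := 0) hd.2.1
        (show (0 : ℝ) ≤ 1 - d1' by have := hd.2.2.1; simp at this; linarith) (by ring)
      simpa using this
    have := spoke_chain (W := W) h k hq
    simpa [lc] using this
  · simp only [Prod.mk.injEq] at h2 h3
    obtain ⟨rfl, rfl⟩ := h3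
    subst h2
    have hq : d1 * (W.w (k' + 1)).re ∈ Set.uIcc (W.w (k' + 1)).re 0 := by
      have := mem_uIcc_comb (a := (W.w (k' + 1)).re) (b := 0) hd.1
        (show (0 : ℝ) ≤ 1 - d1 by have := hd.2.2.1; simp at this; linarith) (by ring)
      simpa using this
    have := spoke_chain' (W := W) h k' hq
    simpa [lc] using this
  · simp only [Prod.mk.injEq] at h2 h3
    obtain ⟨rfl, rfl⟩ := h3
    have hq := mem_uIcc_comb (a := (W.w k).re) (b := (W.w (k + 1)).re) hd.1 hd.2.1 h2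
    have := side_chain (W := W) h k hq
    have e : lc W (k + 4) (d1', d2') = d2' * (W.w k).re + d1' * (W.w (k + 1)).re -
        (W.tau (Tl k)).re := by
      simp only [lc]
      rw [fin41, W.glue k, glue' W k]
      have : d2' = 1 - d1' := by linarith
      simp only [Complex.add_re]
      rw [this]
      ring
    rw [e]
    exact this

theorem exists_chain_tl (h : G) (k : Fin 8) : ∃ r, (TT W).Chain (h, 0, 0) (h * Tl k, 0, 0) r := by
  have h1 := center_chain (W := W) h 0 k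
  have h2 := Tri.Chain.slide (T := TT W) h k 0 (W.w k).re ⟨0, 0, le_rfl, le_rfl⟩
    ⟨1, 1, le_rfl, le_rfl⟩
  have h3 := side_chain (W := W) h k (q := (W.w k).re) Set.left_mem_uIcc
  have e : (W.w k).re - (W.tau (Tl k)).re = (W.w (k + 4 + 1)).re := by
    rw [fin41, W.glue k]; simp
  rw [e] at h3
  have h4 := Tri.Chain.slide (T := TT W) (h * Tl k) (k + 4) (W.w (k + 4 + 1)).re 0
    ⟨2, 2, le_rfl, le_rfl⟩ ⟨0, 0, le_rfl, le_rfl⟩
  have h5 := center_chain (W := W) (h * Tl k) (k + 4) 0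
  exact ⟨_, (((h1.trans h2).trans h3).trans h4).trans h5⟩

theorem letter_eq : ∀ x : Fin 4 × Bool, ∃ k : Fin 8, FreeGroup.mk [x] = Tl k := by
  have h : ∀ x : Fin 4 × Bool, ∃ k : Fin 8, ostri.lab k 0 = [x] := by decide
  intro x
  obtain ⟨k, hk⟩ := h x
  exact ⟨k, by unfold Tl; rw [hk]⟩

theorem exists_chain_word (w : List (Fin 4 × Bool)) : ∀ h : G,
    ∃ r, (TT W).Chain (h, 0, 0) (h * FreeGroup.mk w, 0, 0) r := by
  induction w with
  | nil =>
    intro h
    refine ⟨0, ?_⟩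
    have := center_chain (W := W) h 0 0
    rw [← FreeGroup.one_eq_mk, mul_one]
    exact this
  | cons x w ih =>
    intro h
    obtain ⟨k, hk⟩ := letter_eq x
    obtain ⟨r1, h1⟩ := exists_chain_tl (W := W) h k
    obtain ⟨r2, h2⟩ := ih (h * Tl k)
    refine ⟨_, h1.trans (?_ : (TT W).Chain _ _ r2)⟩
    have e : h * FreeGroup.mk (x :: w) = h * Tl k * FreeGroup.mk w := by
      rw [← hk, mul_assoc, FreeGroup.mul_mk]
      rfl
    rw [e]
    exact h2

theorem set_nonempty (g : G) : {r | ∃ h t q, (TT W).Chain (h, t, q) (g * h, t, q) r}.Nonempty := by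
  obtain ⟨r, hr⟩ := exists_chain_word (W := W) g.toWord 1
  refine ⟨r, 1, 0, 0, ?_⟩
  rw [FreeGroup.mk_toWord, one_mul] at hr
  rwa [mul_one]

/-! ### From paths to chains -/

section lower

variable {U : Type} [TopologicalSpace U] [MulAction G U] {pt : G → Fin 8 → ℝ × ℝ → U} {D : U → ℂ}

omit [TopologicalSpace U] [MulAction G U] in
theorem re_D (hD : IsDev pt W D) (h : G) (k : Fin 8) {d : ℝ × ℝ} (hd : d ∈ Tset) :
    (D (pt h k d)).re = (W.tau h).re + lc W k d := by
  rw [hD h k d hd]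
  simp [lc, add_assoc]

/-- The variation of the real part. -/
def vr (D : U → ℂ) (γ : ℝ → U) (a b : ℝ) : ℝ≥0∞ :=
  eVariationOn (fun s => (D (γ s)).re) (Set.univ ∩ Set.Icc a b)

omit [TopologicalSpace U] [MulAction G U] in
theorem vr_add (γ : ℝ → U) {a b c : ℝ} (hab : a ≤ b) (hbc : b ≤ c) :
    vr D γ a b + vr D γ b c = vr D γ a c :=
  eVariationOn.Icc_add_Icc _ hab hbc (Set.mem_univ _)

omit [TopologicalSpace U] [MulAction G U] in
theorem abs_le_vr (γ : ℝ → U) {a b : ℝ} (hab : a ≤ b) :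
    ENNReal.ofReal |(D (γ a)).re - (D (γ b)).re| ≤ vr D γ a b := by
  have := eVariationOn.edist_le (fun s => (D (γ s)).re) (s := Set.univ ∩ Set.Icc a b) (x := a) (y := b)
    ⟨Set.mem_univ _, Set.left_mem_Icc.2 hab⟩ ⟨Set.mem_univ _, Set.right_mem_Icc.2 hab⟩
  rwa [edist_dist, Real.dist_eq] at this

/-- All leaves through `γ s` can be reached. -/
def Reach (W : OctData) (pt : G → Fin 8 → ℝ × ℝ → U) (D : U → ℂ) (γ : ℝ → U) (h : G) (k : Fin 8)
    (d : ℝ × ℝ) (s : ℝ) : Prop :=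
  ∀ (h' : G) (k' : Fin 8), ∀ d' ∈ Tset, pt h' k' d' = γ s →
    ∃ r, ENNReal.ofReal r ≤ vr D γ 0 s ∧ (TT W).Chain (h, k, lc W k d) (h', k', lc W k' d') r

omit [TopologicalSpace U] [MulAction G U] in
theorem slide_tri (hD : IsDev pt W D) (h : G) (k : Fin 8) {d d' : ℝ × ℝ} (hd : d ∈ Tset)
    (hd' : d' ∈ Tset) : (TT W).Chain (h, k, lc W k d) (h, k, lc W k d')
      |(D (pt h k d)).re - (D (pt h k d')).re| := by
  have := Tri.Chain.slide (T := TT W) h k _ _ (inRange_lc k hd) (inRange_lc k hd')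
  rw [re_D hD h k hd, re_D hD h k hd']
  convert this using 2
  ring

theorem reach_local (hT : OctTree U pt) (hD : IsDev pt W D) {γ : ℝ → U} (hγ : Continuous γ)
    (h : G) (k : Fin 8) (d : ℝ × ℝ) {s₀ : ℝ} (hs₀ : 0 ≤ s₀) : ∃ δ > 0, ∀ s, 0 ≤ s → |s - s₀| < δ →
      ((s ≤ s₀ → Reach W pt D γ h k d s → Reach W pt D γ h k d s₀) ∧
        (s₀ ≤ s → Reach W pt D γ h k d s₀ → Reach W pt D γ h k d s)) := by
  obtain ⟨N, hN, hs₀N, hstar⟩ := star hT (γ s₀)
  have h1 : γ ⁻¹' N ∈ 𝓝 s₀ := hγ.continuousAt.preimage_mem_nhds (hN.mem_nhds hs₀N)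
  obtain ⟨δ, hδ, hball⟩ := Metric.mem_nhds_iff.1 h1
  refine ⟨δ, hδ, fun s hs hsδ => ?_⟩
  have hsN : γ s ∈ N := hball (by rw [Metric.mem_ball, Real.dist_eq]; exact hsδ)
  constructor
  · intro hle hR h' k' d' hd' he
    obtain ⟨h1, k1, d1, hd1, he1⟩ := hT.surj (γ s)
    obtain ⟨r, hr, hc⟩ := hR h1 k1 d1 hd1 he1
    obtain ⟨d2, hd2, he2⟩ := hstar _ hsN h1 k1 ⟨d1, hd1, he1⟩
    have c1 := slide_tri hD h1 k1 hd1 hd2
    have c2 := zero_chain (W := W) hT hd2 hd' (he2.trans he.symm)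
    refine ⟨_, ?_, (hc.trans c1).trans c2⟩
    rw [add_zero, he1, he2, ← vr_add γ hs hle, ENNReal.ofReal_add hc.nonneg (abs_nonneg _)]
    exact add_le_add hr (abs_le_vr γ hle)
  · intro hle hR h' k' d' hd' he
    obtain ⟨d2, hd2, he2⟩ := hstar _ hsN h' k' ⟨d', hd', he⟩
    obtain ⟨r, hr, hc⟩ := hR h' k' d2 hd2 he2
    have c1 := slide_tri hD h' k' hd2 hd'
    refine ⟨_, ?_, hc.trans c1⟩
    rw [he, he2, ← vr_add γ hs₀ hle, ENNReal.ofReal_add hc.nonneg (abs_nonneg _)]
    exact add_le_add hr (abs_le_vr γ hle)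

theorem reach_all (hT : OctTree U pt) (hD : IsDev pt W D) {γ : ℝ → U} (hγ : Continuous γ)
    (h : G) (k : Fin 8) {d : ℝ × ℝ} (hd : d ∈ Tset) (h0 : pt h k d = γ 0) :
    Reach W pt D γ h k d 1 := by
  set B : Set ℝ := {s | 0 ≤ s ∧ s ≤ 1 ∧ ∀ s', 0 ≤ s' → s' ≤ s → Reach W pt D γ h k d s'} with hB
  have hR0 : Reach W pt D γ h k d 0 := by
    intro h' k' d' hd' he
    exact ⟨0, by simp, zero_chain (W := W) hT hd hd' (h0.trans he.symm)⟩
  have h0B : (0 : ℝ) ∈ B := by
    refine ⟨le_rfl, zero_le_one, fun s' h1 h2 => ?_⟩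
    obtain rfl : s' = 0 := le_antisymm h2 h1
    exact hR0
  have hbdd : BddAbove B := ⟨1, fun s hs => hs.2.1⟩
  set S := sSup B with hS
  have hS0 : 0 ≤ S := le_csSup hbdd h0B
  have hS1 : S ≤ 1 := csSup_le ⟨0, h0B⟩ (fun s hs => hs.2.1)
  have hlt : ∀ s', 0 ≤ s' → s' < S → Reach W pt D γ h k d s' := by
    intro s' h1 h2
    obtain ⟨b, hb, hb2⟩ := exists_lt_of_lt_csSup ⟨0, h0B⟩ h2
    exact hb.2.2 s' h1 hb2.le
  obtain ⟨δ, hδ, hloc⟩ := reach_local hT hD hγ h k d hS0
  have hSR : Reach W pt D γ h k d S := by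
    rcases eq_or_lt_of_le hS0 with h1 | h1
    · rw [← h1]; exact hR0
    · have h2 : max 0 (S - δ / 2) < S := max_lt h1 (by linarith)
      have h3 : |max 0 (S - δ / 2) - S| < δ := by
        rw [abs_sub_comm, abs_of_pos (by linarith)]
        have := le_max_right 0 (S - δ / 2)
        linarith
      exact (hloc _ (le_max_left _ _) h3).1 h2.le (hlt _ (le_max_left _ _) h2)
  have hS1' : S = 1 := by
    by_contra hne
    have hlt1 : S < 1 := lt_of_le_of_ne hS1 hne
    have h2 : S < min 1 (S + δ / 2) := lt_min hlt1 (by linarith)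
    have h3 : min 1 (S + δ / 2) ∈ B := by
      refine ⟨by linarith, min_le_left _ _, fun s' h4 h5 => ?_⟩
      rcases le_or_gt s' S with h6 | h6
      · rcases eq_or_lt_of_le h6 with h7 | h7
        · rw [h7]; exact hSR
        · exact hlt s' h4 h7
      · refine (hloc s' h4 ?_).2 h6.le hSR
        rw [abs_of_pos (by linarith)]
        have := h5.trans (min_le_right _ _)
        linarith
    have := le_csSup hbdd h3
    linarith
  rw [hS1'] at hSR
  exact hSR

theorem lower (hT : OctTree U pt) (hD : IsDev pt W D) (g : G) (u : U) (p : Path u (g • u)) :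
    ENNReal.ofReal ((TT W).V g) ≤ eVariationOn (fun s : unitInterval => (D (p s)).re) Set.univ := by
  obtain ⟨h, k, d, hd, hu⟩ := hT.surj u
  have h0 : pt h k d = p.extend 0 := by rw [hu, Path.extend_zero]
  have h1 : pt (g * h) k d = p.extend 1 := by
    rw [← hT.smul, hu, Path.extend_one]
  obtain ⟨r, hr, hc⟩ := reach_all (W := W) (D := D) hT hD p.continuous_extend h k hd h0 (g * h) k d hd h1
  have h2 : vr D p.extend 0 1 = eVariationOn (fun s : unitInterval => (D (p s)).re) Set.univ := by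
    unfold vr
    rw [Set.univ_inter]
    have h3 := eVariationOn.comp_eq_of_monotoneOn (fun s : ℝ => (D (p.extend s)).re)
      (t := (Set.univ : Set unitInterval)) (fun x : unitInterval => (x : ℝ))
      (fun x _ y _ hxy => hxy)
    rw [Set.image_univ, Subtype.range_coe] at h3
    rw [← h3]
    congr 1
    funext s
    simp only [Function.comp]
    rw [Path.extend_apply p s.2]
  rw [← h2]
  exact (ENNReal.ofReal_le_ofReal (Tri.V_le _ hc)).trans hr

end lower

/-! ### From chains to paths -/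

section upper

variable {U : Type} [TopologicalSpace U] [MulAction G U] {pt : G → Fin 8 → ℝ × ℝ → U} {D : U → ℂ}

/-- There is a path from `u` to `v` with variation at most `r`. -/
def VP (D : U → ℂ) (u v : U) (r : ℝ) : Prop :=
  ∃ p : Path u v, eVariationOn (fun s : unitInterval => (D (p s)).re) Set.univ ≤ ENNReal.ofReal r

omit [MulAction G U] in
theorem VP.mono {u v : U} {r r' : ℝ} (h : VP D u v r) (hr : r ≤ r') : VP D u v r' := by
  obtain ⟨p, hp⟩ := h
  exact ⟨p, hp.trans (ENNReal.ofReal_le_ofReal hr)⟩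

omit [MulAction G U] in
theorem VP.refl (u : U) : VP D u u 0 := by
  refine ⟨Path.refl u, ?_⟩
  rw [eVariationOn.constant_on]
  · exact bot_le
  · rintro _ ⟨x, -, rfl⟩ _ ⟨y, -, rfl⟩
    rfl

omit [MulAction G U] in
theorem VP.trans {u v w : U} {r r' : ℝ} (hr : 0 ≤ r) (hr' : 0 ≤ r') (h : VP D u v r)
    (h' : VP D v w r') : VP D u w (r + r') := by
  obtain ⟨p, hp⟩ := h
  obtain ⟨q, hq⟩ := h'
  refine ⟨p.trans q, ?_⟩
  rw [ENNReal.ofReal_add hr hr']
  set F : unitInterval → ℝ := fun s => (D ((p.trans q) s)).re with hF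
  let hf : unitInterval := ⟨1 / 2, by norm_num, by norm_num⟩
  have e1 := eVariationOn.Icc_add_Icc F (s := Set.univ) (a := 0) (b := hf) (c := 1)
    (Subtype.coe_le_coe.1 (by change (0 : ℝ) ≤ 1 / 2; norm_num))
    (Subtype.coe_le_coe.1 (by change (1 / 2 : ℝ) ≤ 1; norm_num)) (Set.mem_univ _)
  have e2 : (Set.univ : Set unitInterval) ∩ Set.Icc 0 1 = Set.univ := by
    ext x
    simp [unitInterval.le_one']
  rw [e2] at e1
  rw [← e1]
  refine add_le_add (le_trans ?_ hp) (le_trans ?_ hq)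
  · have h1 : Set.EqOn F ((fun s : unitInterval => (D (p s)).re) ∘
        (fun s : unitInterval => Set.projIcc (0 : ℝ) 1 zero_le_one (2 * (s : ℝ))))
        (Set.univ ∩ Set.Icc 0 hf) := by
      rintro s ⟨-, hs⟩
      have hs2 : (s : ℝ) ≤ 1 / 2 := hs.2
      simp only [hF, Function.comp, Path.trans_apply]
      rw [dif_pos hs2]
      congr 3
      rw [Set.projIcc_of_mem]
    rw [eVariationOn.eq_of_eqOn h1]
    refine eVariationOn.comp_le_of_monotoneOn _ _ ?_ (fun _ _ => Set.mem_univ _)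
    intro x _ y _ hxy
    apply Set.monotone_projIcc
    have : (x : ℝ) ≤ y := hxy
    linarith
  · have h1 : Set.EqOn F ((fun s : unitInterval => (D (q s)).re) ∘
        (fun s : unitInterval => Set.projIcc (0 : ℝ) 1 zero_le_one (2 * (s : ℝ) - 1)))
        (Set.univ ∩ Set.Icc hf 1) := by
      rintro s ⟨-, hs⟩
      have hs2 : (1 / 2 : ℝ) ≤ s := hs.1
      simp only [hF, Function.comp, Path.trans_apply]
      split_ifs with h3
      · have h4 : (s : ℝ) = 1 / 2 := le_antisymm h3 hs2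
        have h5 : (⟨2 * (s : ℝ), (unitInterval.mul_pos_mem_iff zero_lt_two).2 ⟨s.2.1, h3⟩⟩ :
            unitInterval) = 1 := by
          apply Subtype.ext
          simp [h4]
        have h6 : Set.projIcc (0 : ℝ) 1 zero_le_one (2 * (s : ℝ) - 1) = 0 := by
          rw [h4]
          norm_num
        rw [h6, Path.source]
        have h7 : p ⟨2 * (s : ℝ), (unitInterval.mul_pos_mem_iff zero_lt_two).2 ⟨s.2.1, h3⟩⟩ = v := by
          rw [h5, Path.target]
        rw [h7]
      · congr 3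
        rw [Set.projIcc_of_mem]
    rw [eVariationOn.eq_of_eqOn h1]
    refine eVariationOn.comp_le_of_monotoneOn _ _ ?_ (fun _ _ => Set.mem_univ _)
    intro x _ y _ hxy
    apply Set.monotone_projIcc
    have : (x : ℝ) ≤ y := hxy
    linarith

theorem convex_Tset {d d' : ℝ × ℝ} (hd : d ∈ Tset) (hd' : d' ∈ Tset) {s : ℝ} (h0 : 0 ≤ s)
    (h1 : s ≤ 1) : ((1 - s) * d.1 + s * d'.1, (1 - s) * d.2 + s * d'.2) ∈ Tset := by
  obtain ⟨a1, a2, a3, a4, a5⟩ := hd
  obtain ⟨b1, b2, b3, b4, b5⟩ := hd'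
  have h1s : 0 ≤ 1 - s := by linarith
  have d11 : d.1 < 1 := lt_of_le_of_ne (by linarith) a4
  have d21 : d.2 < 1 := lt_of_le_of_ne (by linarith) a5
  have e11 : d'.1 < 1 := lt_of_le_of_ne (by linarith) b4
  have e21 : d'.2 < 1 := lt_of_le_of_ne (by linarith) b5
  have key : ∀ x y : ℝ, x < 1 → y < 1 → (1 - s) * x + s * y < 1 := by
    intro x y hx hy
    rcases eq_or_lt_of_le h0 with h | h
    · rw [← h]; simpa using hx
    · have := mul_lt_mul_of_pos_left hy h
      have h3 := mul_le_mul_of_nonneg_left hx.le h1s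
      linarith
  refine ⟨?_, ?_, ?_, (key _ _ d11 e11).ne, (key _ _ d21 e21).ne⟩
  · change 0 ≤ (1 - s) * d.1 + s * d'.1
    positivity
  · change 0 ≤ (1 - s) * d.2 + s * d'.2
    positivity
  · change (1 - s) * d.1 + s * d'.1 + ((1 - s) * d.2 + s * d'.2) ≤ 1
    have := mul_le_mul_of_nonneg_left a3 h1s
    have h3 := mul_le_mul_of_nonneg_left b3 h0
    linarith

theorem VP_seg (hT : OctTree U pt) (hD : IsDev pt W D) (h : G) (k : Fin 8) {d d' : ℝ × ℝ}
    (hd : d ∈ Tset) (hd' : d' ∈ Tset) :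
    VP D (pt h k d) (pt h k d') |lc W k d - lc W k d'| := by
  let c : unitInterval → ℝ × ℝ := fun s =>
    ((1 - (s : ℝ)) * d.1 + s * d'.1, (1 - (s : ℝ)) * d.2 + s * d'.2)
  have hc : ∀ s, c s ∈ Tset := fun s => convex_Tset hd hd' s.2.1 s.2.2
  have hcc : Continuous c := by fun_prop
  have hγ : Continuous (fun s => pt h k (c s)) := (continuousOn_pt hT h k).comp_continuous hcc hc
  let p : Path (pt h k d) (pt h k d') :=
    { toFun := fun s => pt h k (c s)
      continuous_toFun := hγ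
      source' := by
        have : c 0 = d := by simp [c]
        rw [this]
      target' := by
        have : c 1 = d' := by simp [c]
        rw [this] }
  refine ⟨p, ?_⟩
  have h1 : (fun s : unitInterval => (D (p s)).re) =
      (fun x : ℝ => (W.tau h).re + lc W k d + x * (lc W k d' - lc W k d)) ∘
        (fun s : unitInterval => (s : ℝ)) := by
    funext s
    change (D (pt h k (c s))).re = _
    rw [re_D hD h k (hc s)]
    simp only [Function.comp, lc, c]
    ring
  rw [h1]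
  have hL : LipschitzOnWith (Real.toNNReal |lc W k d - lc W k d'|)
      (fun x : ℝ => (W.tau h).re + lc W k d + x * (lc W k d' - lc W k d)) Set.univ := by
    rw [lipschitzOnWith_univ]
    apply LipschitzWith.of_dist_le_mul
    intro x y
    rw [Real.dist_eq, Real.dist_eq, Real.coe_toNNReal _ (abs_nonneg _), ← abs_mul]
    rw [← abs_neg]
    apply le_of_eq
    congr 1
    ring
  refine (hL.comp_eVariationOn_le (fun _ _ => Set.mem_univ _)).trans ?_
  have h2 : eVariationOn (fun s : unitInterval => (s : ℝ)) Set.univ ≤ 1 := by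
    have h3 := MonotoneOn.eVariationOn_eq (f := fun s : unitInterval => (s : ℝ)) (s := Set.univ)
      (a := 0) (b := 1) (fun x _ y _ hxy => hxy) (Set.mem_univ _) (Set.mem_univ _)
    have e2 : (Set.univ : Set unitInterval) ∩ Set.Icc 0 1 = Set.univ := by
      ext x
      simp [unitInterval.le_one']
    rw [e2] at h3
    rw [h3]
    simp
  calc _ ≤ ((Real.toNNReal |lc W k d - lc W k d'| : NNReal) : ℝ≥0∞) * 1 := by gcongr
    _ = ENNReal.ofReal |lc W k d - lc W k d'| := by rw [mul_one]; rfl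

/-- Approximation of closed barycentric coordinates by points of `Tset`. -/
theorem shrink_mem {a b η : ℝ} (ha : 0 ≤ a) (hb : 0 ≤ b) (hab : a + b ≤ 1) (hη : 0 < η)
    (hη1 : η ≤ 1) : ((1 - η) * a, (1 - η) * b) ∈ Tset := by
  have h1 : 0 ≤ 1 - η := by linarith
  have ha1 : (1 - η) * a ≤ 1 - η := by
    have := mul_le_mul_of_nonneg_left (show a ≤ 1 by linarith) h1
    linarith
  have hb1 : (1 - η) * b ≤ 1 - η := by
    have := mul_le_mul_of_nonneg_left (show b ≤ 1 by linarith) h1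
    linarith
  refine ⟨mul_nonneg h1 ha, mul_nonneg h1 hb, ?_, ?_, ?_⟩
  · change (1 - η) * a + (1 - η) * b ≤ 1
    have := mul_le_mul_of_nonneg_left hab h1
    linarith
  · change (1 - η) * a ≠ 1
    linarith
  · change (1 - η) * b ≠ 1
    linarith

theorem exists_eta (q ε : ℝ) (hε : 0 < ε) : ∃ η, 0 < η ∧ η ≤ 1 ∧ |η * q| ≤ ε := by
  refine ⟨min 1 (ε / (|q| + 1)), by positivity, min_le_left _ _, ?_⟩
  rw [abs_mul, abs_of_pos (by positivity : 0 < min 1 (ε / (|q| + 1)))]
  have h1 : min 1 (ε / (|q| + 1)) ≤ ε / (|q| + 1) := min_le_right _ _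
  have h2 : 0 < |q| + 1 := by positivity
  calc min 1 (ε / (|q| + 1)) * |q| ≤ ε / (|q| + 1) * (|q| + 1) := by
        apply mul_le_mul h1 (by linarith) (abs_nonneg _) (by positivity)
    _ = ε := by field_simp

/-- barycentric coordinates of the vertices -/
def vt : Fin 3 → ℝ × ℝ := ![(0, 0), (1, 0), (0, 1)]

theorem pos_vt (k : Fin 8) (i : Fin 3) :
    (TT W).pos k i = (vt i).1 * (W.w k).re + (vt i).2 * (W.w (k + 1)).re := by
  fin_cases i
  · change (0 : ℝ) = 0 * _ + 0 * _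
    ring
  · change (W.w k).re = 1 * _ + 0 * _
    ring
  · change (W.w (k + 1)).re = 0 * _ + 1 * _
    ring

theorem vt_mem (i : Fin 3) : 0 ≤ (vt i).1 ∧ 0 ≤ (vt i).2 ∧ (vt i).1 + (vt i).2 ≤ 1 := by
  fin_cases i <;> simp [vt]

theorem exists_bary {k : Fin 8} {q : ℝ} (hq : (TT W).InRange k q) : ∃ a b : ℝ, 0 ≤ a ∧ 0 ≤ b ∧
    a + b ≤ 1 ∧ a * (W.w k).re + b * (W.w (k + 1)).re = q := by
  obtain ⟨i, j, hi, hj⟩ := hq
  have h1 : q ∈ segment ℝ ((TT W).pos k i) ((TT W).pos k j) := by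
    rw [segment_eq_Icc (hi.trans hj)]
    exact ⟨hi, hj⟩
  obtain ⟨s, t, hs, ht, hst, he⟩ := h1
  simp only [smul_eq_mul] at he
  rw [pos_vt, pos_vt] at he
  obtain ⟨i1, i2, i3⟩ := vt_mem i
  obtain ⟨j1, j2, j3⟩ := vt_mem j
  refine ⟨s * (vt i).1 + t * (vt j).1, s * (vt i).2 + t * (vt j).2, by positivity, by positivity,
    ?_, ?_⟩
  · have := mul_le_mul_of_nonneg_left i3 hs
    have h3 := mul_le_mul_of_nonneg_left j3 ht
    linarith
  · rw [← he]; ring

theorem exists_near {k : Fin 8} {q : ℝ} (hq : (TT W).InRange k q) {ε : ℝ} (hε : 0 < ε) :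
    ∃ d ∈ Tset, |lc W k d - q| ≤ ε := by
  obtain ⟨a, b, ha, hb, hab, he⟩ := exists_bary hq
  obtain ⟨η, h1, h2, h3⟩ := exists_eta q ε hε
  refine ⟨_, shrink_mem ha hb hab h1 h2, ?_⟩
  have : lc W k ((1 - η) * a, (1 - η) * b) - q = -(η * q) := by
    rw [← he]; simp only [lc]; ring
  rw [this, abs_neg]
  exact h3

/-- The path version of a chain. -/
def PChain (W : OctData) (pt : G → Fin 8 → ℝ × ℝ → U) (D : U → ℂ) (x y : G × Fin 8 × ℝ) (r : ℝ) :
    Prop :=
  ∀ ε > 0, ∃ d ∈ Tset, ∃ d' ∈ Tset, |lc W x.2.1 d - x.2.2| ≤ ε ∧ |lc W y.2.1 d' - y.2.2| ≤ ε ∧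
    VP D (pt x.1 x.2.1 d) (pt y.1 y.2.1 d') (r + ε)

omit [MulAction G U] in
theorem pchain_of_common {x y : G × Fin 8 × ℝ}
    (H : ∀ ε > 0, ∃ d ∈ Tset, ∃ d' ∈ Tset, |lc W x.2.1 d - x.2.2| ≤ ε ∧
      |lc W y.2.1 d' - y.2.2| ≤ ε ∧ pt x.1 x.2.1 d = pt y.1 y.2.1 d') : PChain W pt D x y 0 := by
  intro ε hε
  obtain ⟨d, hd, d', hd', h1, h2, h3⟩ := H ε hε
  refine ⟨d, hd, d', hd', h1, h2, ?_⟩
  rw [h3]
  exact (VP.refl _).mono (by linarith)

theorem pchain_cross (hT : OctTree U pt) (h : G) (t : Fin 8) (i : Fin 3) (q : ℝ)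
    (hq : (TT W).InEdge t i q) :
    PChain W pt D (h, t, q) (h * (TT W).lab t i, ((TT W).nb t i).1, q + (TT W).shift t i) 0 := by
  apply pchain_of_common
  intro ε hε
  obtain ⟨s, s', hs, hs', hss, he⟩ : q ∈ segment ℝ ((TT W).pos t (i + 1)) ((TT W).pos t (i + 2)) := by
    rw [segment_eq_uIcc]; exact hq
  simp only [smul_eq_mul] at he
  fin_cases i
  · -- the side
    have e0 : s * (W.w t).re + s' * (W.w (t + 1)).re = q := he
    have e2 : (TT W).nb t 0 = (t + 4, 0) := nb0 t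
    have e3 : (TT W).shift t 0 = - (W.tau (Tl t)).re := by
      unfold Tri.shift
      rw [e2]
      change (W.w (t + 4 + 1)).re - (W.w t).re = _
      rw [fin41, W.glue t]
      simp
    obtain ⟨η, h1, h2, h3⟩ := exists_eta (q - ((W.w t).re + (W.w (t + 1)).re) / 2) ε hε
    have m1 : 0 < (1 - η) * s + η / 2 := by
      have := mul_nonneg (show 0 ≤ 1 - η by linarith) hs
      linarith
    have m2 : 0 < (1 - η) * s' + η / 2 := by
      have := mul_nonneg (show 0 ≤ 1 - η by linarith) hs'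
      linarith
    have m3 : (1 - η) * s + η / 2 + ((1 - η) * s' + η / 2) = 1 := by
      have : s' = 1 - s := by linarith
      rw [this]; ring
    have hd : ((1 - η) * s + η / 2, (1 - η) * s' + η / 2) ∈ Tset :=
      ⟨m1.le, m2.le, m3.le, by change (1 - η) * s + η / 2 ≠ 1; linarith,
        by change (1 - η) * s' + η / 2 ≠ 1; linarith⟩
    have hd' : ((1 - η) * s' + η / 2, (1 - η) * s + η / 2) ∈ Tset :=
      ⟨m2.le, m1.le, by rw [add_comm] at m3; exact m3.le,
        by change (1 - η) * s' + η / 2 ≠ 1; linarith,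
        by change (1 - η) * s + η / 2 ≠ 1; linarith⟩
    have e5 : (1 - η) * s' + η / 2 = 1 - ((1 - η) * s + η / 2) := by linarith
    refine ⟨_, hd, _, hd', ?_, ?_, ?_⟩
    · change |lc W t ((1 - η) * s + η / 2, (1 - η) * s' + η / 2) - q| ≤ ε
      have : lc W t ((1 - η) * s + η / 2, (1 - η) * s' + η / 2) - q =
          -(η * (q - ((W.w t).re + (W.w (t + 1)).re) / 2)) := by
        rw [← e0]; simp only [lc]; ring
      rw [this, abs_neg]; exact h3
    · change |lc W ((TT W).nb t 0).1 ((1 - η) * s' + η / 2, (1 - η) * s + η / 2) -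
        (q + (TT W).shift t 0)| ≤ ε
      rw [e3, e2]
      have : lc W (t + 4) ((1 - η) * s' + η / 2, (1 - η) * s + η / 2) - (q + -(W.tau (Tl t)).re) =
          -(η * (q - ((W.w t).re + (W.w (t + 1)).re) / 2)) := by
        simp only [lc]
        rw [fin41, ← e0, glue' W t, W.glue t]
        simp only [Complex.add_re]
        have : s' = 1 - s := by linarith
        rw [this]
        ring
      rw [this, abs_neg]; exact h3
    · change pt h t ((1 - η) * s + η / 2, (1 - η) * s' + η / 2) =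
        pt (h * (TT W).lab t 0) ((TT W).nb t 0).1 ((1 - η) * s' + η / 2, (1 - η) * s + η / 2)
      rw [e2, e5]
      exact hT.side h t _ m1 (by linarith)
  · -- the spoke `t + 1`
    have e0 : s * (W.w (t + 1)).re + s' * 0 = q := he
    rw [mul_zero, add_zero] at e0
    have e2 : (TT W).nb t 1 = (t + 1, 2) := nb1 t
    have e3 : (TT W).shift t 1 = 0 := by
      unfold Tri.shift
      rw [e2]
      change (W.w (t + 1)).re - (W.w (t + 1)).re = _
      simp
    have e1 : (TT W).lab t 1 = 1 := by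
      change FreeGroup.mk (ostri.lab t 1) = 1
      rw [lab1]; rfl
    obtain ⟨η, h1, h2, h3⟩ := exists_eta q ε hε
    have hd := shrink_mem le_rfl hs (show 0 + s ≤ 1 by linarith) h1 h2
    have hd' := shrink_mem hs le_rfl (show s + 0 ≤ 1 by linarith) h1 h2
    rw [mul_zero] at hd hd'
    refine ⟨_, hd, _, hd', ?_, ?_, ?_⟩
    · change |lc W t (0, (1 - η) * s) - q| ≤ ε
      have : lc W t (0, (1 - η) * s) - q = -(η * q) := by
        rw [← e0]; simp only [lc]; ring
      rw [this, abs_neg]; exact h3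
    · change |lc W ((TT W).nb t 1).1 ((1 - η) * s, 0) - (q + (TT W).shift t 1)| ≤ ε
      rw [e2, e3]
      have : lc W (t + 1) ((1 - η) * s, 0) - (q + 0) = -(η * q) := by
        rw [← e0]; simp only [lc]; ring
      rw [this, abs_neg]; exact h3
    · change pt h t (0, (1 - η) * s) = pt (h * (TT W).lab t 1) ((TT W).nb t 1).1 ((1 - η) * s, 0)
      rw [e1, e2, mul_one]
      refine (hT.spoke h t _ hd'.1 ?_).symm
      exact lt_of_le_of_ne (by have := hd'.2.2.1; simpa using this) hd'.2.2.2.1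
  · -- the spoke `t`
    obtain ⟨t, rfl⟩ : ∃ t', t = t' + 1 := ⟨t - 1, (sub_add_one t).symm⟩
    have e0 : s * 0 + s' * (W.w (t + 1)).re = q := he
    rw [mul_zero, zero_add] at e0
    have e2 : (TT W).nb (t + 1) 2 = (t, 1) := nb2 t
    have e3 : (TT W).shift (t + 1) 2 = 0 := by
      unfold Tri.shift
      rw [e2]
      change (0 : ℝ) - 0 = _
      simp
    have e1 : (TT W).lab (t + 1) 2 = 1 := by
      change FreeGroup.mk (ostri.lab (t + 1) 2) = 1
      rw [lab2]; rfl
    obtain ⟨η, h1, h2, h3⟩ := exists_eta q ε hε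
    have hd' := shrink_mem le_rfl hs' (show 0 + s' ≤ 1 by linarith) h1 h2
    have hd := shrink_mem hs' le_rfl (show s' + 0 ≤ 1 by linarith) h1 h2
    rw [mul_zero] at hd hd'
    refine ⟨_, hd, _, hd', ?_, ?_, ?_⟩
    · change |lc W (t + 1) ((1 - η) * s', 0) - q| ≤ ε
      have : lc W (t + 1) ((1 - η) * s', 0) - q = -(η * q) := by
        rw [← e0]; simp only [lc]; ring
      rw [this, abs_neg]; exact h3
    · change |lc W ((TT W).nb (t + 1) 2).1 (0, (1 - η) * s') - (q + (TT W).shift (t + 1) 2)| ≤ ε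
      rw [e2, e3]
      have : lc W t (0, (1 - η) * s') - (q + 0) = -(η * q) := by
        rw [← e0]; simp only [lc]; ring
      rw [this, abs_neg]; exact h3
    · change pt h (t + 1) ((1 - η) * s', 0) =
        pt (h * (TT W).lab (t + 1) 2) ((TT W).nb (t + 1) 2).1 (0, (1 - η) * s')
      rw [e1, e2, mul_one]
      refine hT.spoke h t _ hd.1 ?_
      exact lt_of_le_of_ne (by have := hd.2.2.1; simpa using this) hd.2.2.2.1

theorem abs_sub_le_of {a b c ε ε' : ℝ} (h1 : |a - c| ≤ ε) (h2 : |b - c| ≤ ε') :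
    |a - b| ≤ ε + ε' := by
  rw [abs_le] at *
  constructor <;> linarith [h1.1, h1.2, h2.1, h2.2]

theorem pchain (hT : OctTree U pt) (hD : IsDev pt W D) {x y : G × Fin 8 × ℝ} {r : ℝ}
    (H : (TT W).Chain x y r) : PChain W pt D x y r := by
  induction H with
  | slide h t q q' h1 h2 =>
    intro ε hε
    obtain ⟨d, hd, hd2⟩ := exists_near h1 (half_pos hε)
    obtain ⟨d', hd', hd2'⟩ := exists_near h2 (half_pos hε)
    refine ⟨d, hd, d', hd', hd2.trans (by linarith), hd2'.trans (by linarith), ?_⟩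
    refine (VP_seg hT hD h t hd hd').mono ?_
    rw [abs_le] at hd2 hd2'
    rw [abs_le]
    have := abs_le.1 (le_refl |q - q'|)
    constructor <;> linarith [hd2.1, hd2.2, hd2'.1, hd2'.2, this.1, this.2]
  | cross h t i q h1 => exact pchain_cross hT h t i q h1
  | @trans x y z r r' H1 H2 ih1 ih2 =>
    intro ε hε
    obtain ⟨d1, hd1, d1', hd1', a1, a2, a3⟩ := ih1 (ε / 4) (by linarith)
    obtain ⟨d2, hd2, d2', hd2', b1, b2, b3⟩ := ih2 (ε / 4) (by linarith)
    refine ⟨d1, hd1, d2', hd2', a1.trans (by linarith), b2.trans (by linarith), ?_⟩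
    have c1 := VP_seg hT hD y.1 y.2.1 hd1' hd2
    have c2 := abs_sub_le_of a2 b1
    have n1 := H1.nonneg
    have n2 := H2.nonneg
    refine ((a3.trans (by linarith) (abs_nonneg _) c1).trans (by positivity) (by linarith) b3).mono ?_
    linarith

theorem vgeo_le_of_VP' (g : G) (u : U) {r : ℝ} (p : Path u (g • u))
    (hp : eVariationOn (fun s : unitInterval => (D (p s)).re) Set.univ ≤ ENNReal.ofReal r) :
    vgeo D g ≤ ENNReal.ofReal r := by
  have h1 : vgeo D g ≤ ⨅ (p : Path u (g • u)),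
    eVariationOn (fun s : unitInterval => (D (p s)).re) Set.univ := iInf_le _ u
  have h2 := iInf_le (fun p : Path u (g • u) =>
    eVariationOn (fun s : unitInterval => (D (p s)).re) Set.univ) p
  exact (h1.trans h2).trans hp

theorem vgeo_le_of_VP (g : G) (u : U) {r : ℝ} (h : VP D u (g • u) r) :
    vgeo D g ≤ ENNReal.ofReal r := by
  rcases h with ⟨p, hp⟩
  exact vgeo_le_of_VP' g u p hp

theorem upper_aux0 (hT : OctTree U pt) (hD : IsDev pt W D) (g h : G) (t : Fin 8) (q r : ℝ)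
    (H : (TT W).Chain (h, t, q) (g * h, t, q) r) {ε : ℝ} (hε : 0 < ε) :
    ∃ d, VP D (pt h t d) (pt (g * h) t d) (r + ε) := by
  have n1 : 0 ≤ r := H.nonneg
  have hP : PChain W pt D (h, t, q) (g * h, t, q) r := pchain hT hD H
  have h3 : 0 < ε / 3 := by linarith
  have hP2 : ∃ d ∈ Tset, ∃ d' ∈ Tset, |lc W t d - q| ≤ ε / 3 ∧ |lc W t d' - q| ≤ ε / 3 ∧
    VP D (pt h t d) (pt (g * h) t d') (r + ε / 3) := hP _ h3
  obtain ⟨d, hd, d', hd', a1, a2, a3⟩ := hP2
  have c1 := VP_seg hT hD (g * h) t hd' hd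
  have c2 := abs_sub_le_of a2 a1
  have c3 : VP D (pt h t d) (pt (g * h) t d) (r + ε / 3 + |lc W t d' - lc W t d|) :=
    a3.trans (by linarith) (abs_nonneg _) c1
  refine ⟨d, ?_⟩
  have h4 : r + ε / 3 + |lc W t d' - lc W t d| ≤ r + ε := by
    generalize |lc W t d' - lc W t d| = z at c2
    linarith
  exact c3.mono h4

theorem upper_aux (hT : OctTree U pt) (hD : IsDev pt W D) (g : G) {r : ℝ}
    (hr : ∃ h t q, (TT W).Chain (h, t, q) (g * h, t, q) r) {ε : ℝ} (hε : 0 < ε) :
    vgeo D g ≤ ENNReal.ofReal (r + ε) := by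
  obtain ⟨h, t, q, H⟩ := hr
  obtain ⟨d, hd⟩ := upper_aux0 hT hD g h t q r H hε
  have e : g • pt h t d = pt (g * h) t d := hT.smul g h t d
  rw [← e] at hd
  exact vgeo_le_of_VP g _ hd

theorem upper (hT : OctTree U pt) (hD : IsDev pt W D) (g : G) :
    vgeo D g ≤ ENNReal.ofReal ((TT W).V g) := by
  have key : ∀ ε > 0, vgeo D g ≤ ENNReal.ofReal ((TT W).V g + ε) := by
    intro ε hε
    obtain ⟨r, hr1, hr2⟩ := exists_lt_of_csInf_lt (set_nonempty (W := W) g)
      (lt_add_of_pos_right ((TT W).V g) (half_pos hε))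
    refine (upper_aux hT hD g hr1 (half_pos hε)).trans (ENNReal.ofReal_le_ofReal ?_)
    have e : (TT W).V g + ε = (TT W).V g + ε / 2 + ε / 2 := by ring
    rw [e]
    exact add_le_add hr2.le le_rfl
  have hV := Tri.V_nonneg (TT W) g
  generalize (TT W).V g = v at key hV
  apply le_of_forall_pos_le_add
  intro ε hε
  rcases eq_or_ne ε ⊤ with h1 | h1
  · rw [h1]; simp
  · have h2 := key ε.toReal (ENNReal.toReal_pos hε.ne' h1)
    rwa [ENNReal.ofReal_add hV ENNReal.toReal_nonneg, ENNReal.ofReal_toReal h1] at h2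

end upper

end VGeoAux

open VGeoAux in
theorem stmt_VGeo : Stmt_VGeo := by
  intro U _ _ _ pt hT W D hD g
  apply le_antisymm
  · exact upper hT hD g
  · refine le_iInf fun u => le_iInf fun p => ?_
    exact lower hT hD g u p

end Pool.Agent.CircleShift
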